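import Pool.Agent.W894.HT.MLib

namespace Pool.Agent.W19.HNModm

open Pool.Agent.NPC Pool.Agent.NPC.Cnt
open Pool.Agent.W894.HT

theorem fp_zero : FP (fun _ => 0) :=
  Pool.Agent.NPC.H549Convex.fp_of_poly (Pool.Agent.NPC.Poly.const 0)

theorem main (hd : S_DIG) (hl : S_LUCAS) (hc : S_CRT) : S_MODM := by
  intro f hf m
  induction m using Nat.recOnPosPrimePosCoprime with
  | prime_pow p n hp hn =>
    intro _ h
    have h1 := hd p hp (h p hp (dvd_pow_self p (by omega)))
    exact hl p hp h1 n f hf
  | zero =>
    intro h
    exact absurd h (lt_irrefl 0)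
  | one =>
    intro _ _
    have : (fun x : List Bool => f x % 1) = fun _ => 0 := by
      funext x
      exact Nat.mod_one _
    rw [this]
    exact fp_zero
  | coprime a b ha hb hab iha ihb =>
    intro _ h
    exact hc f a b (by omega) (by omega) hab
      (iha (by omega) fun p hp hpa => h p hp (hpa.mul_right b))
      (ihb (by omega) fun p hp hpb => h p hp (hpb.mul_left a))

end Pool.Agent.W19.HNModm
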